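import Pool.Agent.helper87.HS.Khin
import Pool.Agent.helper87.HS.Nec

/-!
# MP_4fa6ed_nt, Q1: measurable multiplicative recurrence along ratios of linear forms

`S = {(a n + b) / (c n + d) : n ≥ 1}`, `a, c ≥ 1`, `gcd (a, b, c, d) = 1`. If `a = c` and `b = d` or
`a ∣ b d`, then `S` is a set of measurable multiplicative recurrence (the open part of Q1), in the
strongest form: for every `ε > 0` there is `N` such that for every measure-preserving action of
`(ℕ, ×)` on a probability space and every measurable set `A` some `n ≤ N` satisfies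
`μ (T_(an+b)⁻¹ A ∩ T_(cn+d)⁻¹ A) ≥ μ(A)² - ε`. Conversely, if `S` is a set of measurable multiplicative
recurrence, then `a = c` and (`b = d` or `a ∣ b d`), or `1 ∈ S` (`a n + b = c n + d ≥ 1` for some `n ≥ 1`,
when the recurrence is trivial; for example `(a, b, c, d) = (2, 0, 1, 1)`).

Proof. For coprime `P, R` and every `r` there is a set `F` of `r` positive integers with
`P (y - x) ∣ x` and `R (y - x) ∣ y` for all `x < y` in `F` (`chain`). By a second moment argument two of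
the sets `T_x⁻¹ A`, `x ∈ F`, meet in measure at least `μ(A)² - ε`; `x = g k`, `y = g (k + 1)`, so the same is
true for `T_k⁻¹ A ∩ T_(k+1)⁻¹ A` and for `T_(D k)⁻¹ A ∩ T_(D (k+1))⁻¹ A`, `D = |d - b|`; with `a = P R`, `P ∣ b`,
`R ∣ d` the congruences give `D k = a n + b`. Converse: if `a = c`, `a ∤ b d`, `b ≠ d`, an action on a
finite group (the `p`-adic valuation, or the prime-to-`p` part modulo a power of `p`); if `a ≠ c`,
rotations `x ↦ x + θ log m` of a torus.
-/

set_option autoImplicit false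

universe u

namespace Pool.Agent.Results.MP_4fa6ed_nt.UniformKhintchine

open Pool.Agent.helper87.HS

theorem result (a c : ℕ) (b d : ℤ) (ha : 0 < a) (hc : 0 < c)
    (hgcd : ∀ k : ℤ, k ∣ (a : ℤ) → k ∣ (c : ℤ) → k ∣ b → k ∣ d → IsUnit k) :
    (Recurrent.{u} a c b d ↔ (a = c ∧ (b = d ∨ (a : ℤ) ∣ b * d)) ∨
      ∃ n : ℕ, 0 < n ∧ 0 < (a : ℤ) * n + b ∧ (a : ℤ) * n + b = c * n + d) ∧
    (Recurrent.{u} a c b d → Khintchine.{u} a c b d) := by
  have hiff : ((a = c ∧ (b = d ∨ (a : ℤ) ∣ b * d)) ∨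
      ∃ n : ℕ, 0 < n ∧ 0 < (a : ℤ) * n + b ∧ (a : ℤ) * n + b = c * n + d) →
      ((a = c ∧ (a : ℤ) ∣ b * d) ∨
      ∃ n : ℕ, 0 < n ∧ 0 < (a : ℤ) * n + b ∧ (a : ℤ) * n + b = c * n + d) := by
    rintro (⟨rfl, rfl | h⟩ | h)
    · right
      have haZ : (1 : ℤ) ≤ (a : ℤ) := by exact_mod_cast ha
      have hb : -|b| ≤ b := neg_abs_le b
      have habs : 0 ≤ |b| := abs_nonneg b
      have hcast : ((b.natAbs : ℕ) : ℤ) = |b| := Int.natCast_natAbs b
      refine ⟨b.natAbs + 1, by omega, ?_, rfl⟩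
      push_cast
      nlinarith
    · exact Or.inl ⟨rfl, h⟩
    · exact Or.inr h
  refine ⟨⟨fun h => ?_, fun h => recurrent_of_khin a c b d (khin a c b d ha hgcd (hiff h))⟩,
    fun h => khin a c b d ha hgcd (nec a c b d ha hc hgcd h)⟩
  rcases nec a c b d ha hc hgcd h with ⟨h1, h2⟩ | h1
  · exact Or.inl ⟨h1, Or.inr h2⟩
  · exact Or.inr h1

end Pool.Agent.Results.MP_4fa6ed_nt.UniformKhintchine
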